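import Mathlib

/-!
# A solution of `2 ^ (n - 2) ≡ 1 (mod n)` whose last decimal digit is `9`

`n = 1210344599 = 73 * 337 * 49199`. The order of `2` modulo `n` divides `1549737`, and
`n - 2 = 1549737 * 781`.
-/

set_option autoImplicit false

namespace Pool.Agent.Results.MP_aad82b_nt.EndsInNine

theorem order_dvd : 2 ^ 1549737 ≡ 1 [MOD 1210344599] := by
  have h1 : 2 ^ 9 ≡ 1 [MOD 73] := by decide
  have h2 : 2 ^ 21 ≡ 1 [MOD 337] := by decide
  have h3 : 2 ^ 24599 ≡ 1 [MOD 49199] := by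
    have e : 24599 = 17 * 1447 := by norm_num
    rw [e, pow_mul]
    have h : 2 ^ 17 ≡ 32674 [MOD 49199] := by decide
    refine (h.pow 1447).trans ?_
    decide +kernel
  have e1 : 1549737 = 9 * 172193 := by norm_num
  have e2 : 1549737 = 21 * 73797 := by norm_num
  have e3 : 1549737 = 24599 * 63 := by norm_num
  have g1 : 2 ^ 1549737 ≡ 1 [MOD 73] := by
    rw [e1, pow_mul]; exact (h1.pow 172193).trans (by rw [one_pow])
  have g2 : 2 ^ 1549737 ≡ 1 [MOD 337] := by
    rw [e2, pow_mul]; exact (h2.pow 73797).trans (by rw [one_pow])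
  have g3 : 2 ^ 1549737 ≡ 1 [MOD 49199] := by
    rw [e3, pow_mul]; exact (h3.pow 63).trans (by rw [one_pow])
  have c1 : Nat.Coprime 73 337 := by norm_num
  have c2 : Nat.Coprime (73 * 337) 49199 := by norm_num
  have g := (Nat.modEq_and_modEq_iff_modEq_mul c2).1
    ⟨(Nat.modEq_and_modEq_iff_modEq_mul c1).1 ⟨g1, g2⟩, g3⟩
  exact g

/-- There is an integer `n ≥ 2` with `n ≡ 9 (mod 10)` and `2 ^ (n - 2) ≡ 1 (mod n)`. -/
theorem result : ∃ n : ℕ, 2 ≤ n ∧ n % 10 = 9 ∧ 2 ^ (n - 2) ≡ 1 [MOD n] := by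
  refine ⟨1210344599, by norm_num, by norm_num, ?_⟩
  have e : 1210344599 - 2 = 1549737 * 781 := by norm_num
  rw [e, pow_mul]
  exact (order_dvd.pow 781).trans (by rw [one_pow])

end Pool.Agent.Results.MP_aad82b_nt.EndsInNine
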